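import Pool.Agent.Y862.SQ.Main1

set_option autoImplicit false

/-!
# Almost primes just above squares: the law of large numbers in almost all windows

Call `m` good if it has at most `2 r` prime factors, all of them larger than `X ^ (1 / r)`. For `n ≤ 2 X` we
count the good `m` in `(n ^ 2, n ^ 2 + t]`. Let `V` be the product of `1 - 1 / p` over the primes
`p ≤ X ^ (1 / r)`, so that `V` has the order of magnitude `r / log X` and `t V` is the expected number.
For all `θ, ε > 0` there are `K`, `r0` such that for `r ≥ r0` and all large `X` the following holds in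
EVERY interval `(Z, Z + Y]` with `Y ≥ X ^ θ`, `Z + Y ≤ 2 X`, and for every `T` with `T V ≥ K` and
`T ^ 5 ≤ X ^ θ`: for all but `ε Y` of the integers `n` in `(Z, Z + Y]` and for ALL lengths `T ≤ t ≤ 2 T` at the
same time, the number of good `m` in `(n ^ 2, n ^ 2 + t]` is `(1 + O(ε)) t V`. The lengths may be as short as a
constant times `log X`; the lengths `(log n / log 2) ^ 2` of the question, `X < n ≤ 2 X`, lie between `T` and
`2 T` for `T = ⌊(log X / log 2) ^ 2⌋`.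

Proof. The first two binomial moments of the number are averages of the singular series of the
polynomials `(n ^ 2 + h) (n ^ 2 + h')`. The factor of one `h` is close to `L(1, χ) ^ (-1)` for the quadratic
character `χ = (-h / .)` and is not bounded; in mean square over `h ≤ T` it is close to one: the small
primes by Brun's sieve, the middle ones by an elementary large sieve, the large ones by the theorem of
Siegel and Walfisz. Written with helpers 779 (large sieve), 436 (exceptional h), 756 (Brun), 286 (second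
moment), 848 (large primes), 117 (mean square), 606 (collisions), 420 (tail), 681 (small primes), 61
(average), 486 (moments), 810 (Mertens bounds).
-/

namespace Pool.Agent.Results.MP_73869e_nt.LawOfLargeNumbers

open Finset

/-- `m` has at most `2 r` prime factors (with multiplicity), all larger than `X ^ (1 / r)` -/
def Good (r X m : ℕ) : Prop :=
  m.primeFactorsList.length ≤ 2 * r ∧ ∀ p : ℕ, p.Prime → p ∣ m → (X : ℝ) ^ (1 / (r : ℝ)) < (p : ℝ)

open Classical in
/-- the number of the good integers `m` with `n ^ 2 < m ≤ n ^ 2 + t` -/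
noncomputable def N (r X n t : ℕ) : ℕ := ((Ioc (n ^ 2) (n ^ 2 + t)).filter (fun m => Good r X m)).card

/-- the product of `1 - 1 / p` over the primes `p ≤ X ^ (1 / r)` -/
noncomputable def V (r X : ℕ) : ℝ :=
  ∏ p ∈ (Icc 1 ⌊(X : ℝ) ^ (1 / (r : ℝ))⌋₊).filter Nat.Prime, (1 - 1 / (p : ℝ))

/-- for some length `t` between `T` and `2 T` the number of the good integers in `(n ^ 2, n ^ 2 + t]`
differs from the expected number `t V` by more than `ε t V` -/
def Bad (r X T : ℕ) (ε : ℝ) (n : ℕ) : Prop :=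
  ∃ t : ℕ, T ≤ t ∧ t ≤ 2 * T ∧ ε * (t * V r X) < |(N r X n t : ℝ) - t * V r X|

lemma length_le (z : ℝ) (hz : 0 < z) (L : List ℕ) (hL : ∀ p ∈ L, z ≤ (p : ℝ)) :
    z ^ L.length ≤ (L.prod : ℝ) := by
  induction L with
  | nil => simp
  | cons a l ih =>
    rw [List.length_cons, List.prod_cons, pow_succ, Nat.cast_mul]
    have h1 := ih (fun p hp => hL p (List.mem_cons_of_mem _ hp))
    have h2 := hL a List.mem_cons_self
    have h3 : 0 < z ^ l.length := by positivity
    calc z ^ l.length * z ≤ (l.prod : ℝ) * a := by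
          apply mul_le_mul h1 h2 hz.le (h3.le.trans h1)
      _ = _ := by ring

/-- good integers are the sifted ones -/
lemma good_iff (r X m : ℕ) (hr : 1 ≤ r) (hX : 1 ≤ X) (h5 : 5 < (X : ℝ) ^ (1 / (r : ℝ))) (hm : 1 ≤ m)
    (hmX : m ≤ 5 * X ^ 2) :
    Good r X m ↔ ∀ p ∈ Pool.Agent.Y862.SQ.pr ⌊(X : ℝ) ^ (1 / (r : ℝ))⌋₊, ¬ p ∣ m := by
  have hz0 : 0 ≤ (X : ℝ) ^ (1 / (r : ℝ)) := by positivity
  constructor
  · rintro ⟨-, h2⟩ p hp hd
    rw [Pool.Agent.Y862.SQ.pr, mem_filter, mem_Icc] at hp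
    have h3 := h2 p hp.2 hd
    have h4 : (p : ℝ) ≤ (X : ℝ) ^ (1 / (r : ℝ)) :=
      (Nat.le_floor_iff hz0).1 hp.1.2
    linarith
  · intro h
    have hbig : ∀ p : ℕ, p.Prime → p ∣ m → (X : ℝ) ^ (1 / (r : ℝ)) < (p : ℝ) := by
      intro p hp hd
      by_contra hcon
      push Not at hcon
      refine h p ?_ hd
      rw [Pool.Agent.Y862.SQ.pr, mem_filter, mem_Icc]
      exact ⟨⟨hp.one_lt.le, Nat.le_floor hcon⟩, hp⟩
    refine ⟨?_, hbig⟩
    by_contra hcon
    push Not at hcon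
    obtain ⟨z, hz⟩ : ∃ z : ℝ, z = (X : ℝ) ^ (1 / (r : ℝ)) := ⟨_, rfl⟩
    rw [← hz] at h5 hbig
    have h1 := length_le z (by linarith) m.primeFactorsList (fun p hp =>
      (hbig p (Nat.prime_of_mem_primeFactorsList hp) (Nat.dvd_of_mem_primeFactorsList hp)).le)
    rw [Nat.prod_primeFactorsList (by omega)] at h1
    have h2 : z ^ (2 * r + 1) ≤ (m : ℝ) := (pow_le_pow_right₀ (by linarith) (by omega)).trans h1
    have h3 : z ^ r = X := by
      rw [hz, ← Real.rpow_natCast, ← Real.rpow_mul (Nat.cast_nonneg X), one_div,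
        inv_mul_cancel₀ (by positivity), Real.rpow_one]
    have h4 : z ^ (2 * r + 1) = (X : ℝ) ^ 2 * z := by
      rw [pow_succ, mul_comm 2 r, pow_mul, h3]
    rw [h4] at h2
    have h6 : (m : ℝ) ≤ 5 * (X : ℝ) ^ 2 := by exact_mod_cast hmX
    have h7 : (1 : ℝ) ≤ (X : ℝ) ^ 2 := by
      have : (1 : ℝ) ≤ X := by exact_mod_cast hX
      nlinarith
    nlinarith

/-- the numbers of the good integers are the numbers of the sifted shifts -/
lemma N_eq (r X n t : ℕ) (hr : 1 ≤ r) (hX : 1 ≤ X) (h5 : 5 < (X : ℝ) ^ (1 / (r : ℝ)))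
    (hn : n ^ 2 + t ≤ 5 * X ^ 2) :
    N r X n t = Pool.Agent.Y862.SQ.Ns ⌊(X : ℝ) ^ (1 / (r : ℝ))⌋₊ t n := by
  classical
  unfold N Pool.Agent.Y862.SQ.Ns
  symm
  apply Finset.card_bij (fun h _ => n ^ 2 + h)
  · intro h hh
    rw [mem_filter, mem_Icc] at hh
    rw [mem_filter, mem_Ioc]
    refine ⟨by omega, ?_⟩
    rw [good_iff r X (n ^ 2 + h) hr hX h5 (by omega) (by omega)]
    exact hh.2
  · intro a _ b _ hab
    omega
  · intro m hm
    rw [mem_filter, mem_Ioc] at hm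
    refine ⟨m - n ^ 2, ?_, by omega⟩
    rw [mem_filter, mem_Icc]
    refine ⟨by omega, ?_⟩
    have h1 := (good_iff r X m hr hX h5 (by omega) (by omega)).1 hm.2
    have h2 : n ^ 2 + (m - n ^ 2) = m := by omega
    rw [h2]
    exact h1

open Classical in
/-- **The law of large numbers for almost primes just above squares.** -/
theorem result (θ ε : ℝ) (hθ : 0 < θ) (hε : 0 < ε) :
    ∃ (K : ℝ) (r0 : ℕ), ∀ r : ℕ, r0 ≤ r → ∃ X0 : ℕ, ∀ X : ℕ, X0 ≤ X → ∀ Z Y : ℕ,
      (X : ℝ) ^ θ ≤ Y → Z + Y ≤ 2 * X → ∀ T : ℕ, K ≤ T * V r X → (T : ℝ) ^ 5 ≤ (X : ℝ) ^ θ →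
        (((Ioc Z (Z + Y)).filter (fun n => Bad r X T ε n)).card : ℝ) ≤ ε * Y := by
  obtain ⟨ε', hε'⟩ : ∃ ε' : ℝ, ε' = min ε 1 := ⟨_, rfl⟩
  have hε'0 : 0 < ε' := by rw [hε']; positivity
  have hε'1 : ε' ≤ 1 := by rw [hε']; exact min_le_right _ _
  have hε'ε : ε' ≤ ε := by rw [hε']; exact min_le_left _ _
  obtain ⟨K, K0, y0, T0, hK, hl⟩ :=
    Pool.Agent.Y862.SQ.lln_unif Pool.Agent.Y862.SQ.t_MOM ε' hε'0 hε'1
  obtain ⟨c, C, hc, hC, hV⟩ := Pool.Agent.Y810.SQ.V1_bounds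
  obtain ⟨R1, hR1⟩ := exists_nat_ge ((K0 : ℝ) / θ)
  refine ⟨K, R1 + 1, ?_⟩
  intro r hr
  have hr1 : 1 ≤ r := by omega
  have hrr : (1 : ℝ) ≤ r := by exact_mod_cast hr1
  have hrpos : (0 : ℝ) < r := by linarith
  have hrK : (K0 : ℝ) ≤ θ * r := by
    have h1 : (K0 : ℝ) / θ ≤ r := hR1.trans (by exact_mod_cast (by omega : R1 ≤ r))
    rw [div_le_iff₀ hθ] at h1
    linarith
  have hpow : Filter.Tendsto (fun X : ℕ => (X : ℝ) ^ (1 / (r : ℝ))) Filter.atTop Filter.atTop :=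
    (tendsto_rpow_atTop (by positivity)).comp tendsto_natCast_atTop_atTop
  have hlog : Filter.Tendsto (fun X : ℕ => Real.log ((X : ℝ) ^ (1 / (r : ℝ)) - 1)) Filter.atTop
      Filter.atTop :=
    Real.tendsto_log_atTop.comp (Filter.tendsto_atTop_add_const_right _ _ hpow)
  have hev : ∀ᶠ X : ℕ in Filter.atTop, (y0 : ℝ) + 6 < (X : ℝ) ^ (1 / (r : ℝ)) ∧
      (T0 : ℝ) * C / K < Real.log ((X : ℝ) ^ (1 / (r : ℝ)) - 1) ∧ 4 ≤ X :=
    (hpow.eventually_gt_atTop _).and ((hlog.eventually_gt_atTop _).and (Filter.eventually_ge_atTop 4))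
  obtain ⟨X0, hX0⟩ := Filter.eventually_atTop.1 hev
  refine ⟨X0, ?_⟩
  intro X hX Z Y hXY hZY T hKT hT5
  obtain ⟨h1, h2, h3⟩ := hX0 X hX
  have hX1 : (1 : ℝ) ≤ X := by exact_mod_cast (by omega : 1 ≤ X)
  obtain ⟨y, hy⟩ : ∃ y : ℕ, y = ⌊(X : ℝ) ^ (1 / (r : ℝ))⌋₊ := ⟨_, rfl⟩
  have hy0' : (0 : ℝ) ≤ y0 := Nat.cast_nonneg y0
  have hyz : (y : ℝ) ≤ (X : ℝ) ^ (1 / (r : ℝ)) := by
    rw [hy]
    exact Nat.floor_le (by positivity)
  have hzy : (X : ℝ) ^ (1 / (r : ℝ)) < y + 1 := by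
    rw [hy]
    exact Nat.lt_floor_add_one _
  have hyy0 : y0 + 5 ≤ y := by
    have : (y0 : ℝ) + 5 < y := by linarith
    have h4 : ((y0 + 5 : ℕ) : ℝ) < y := by push_cast; exact this
    exact (Nat.cast_lt.1 h4).le
  have hVeq : V r X = Pool.Agent.Y862.SQ.V1 y := by
    rw [hy]
    rfl
  rw [hVeq] at hKT
  have hVb := hV y (by omega)
  have hV0 := Pool.Agent.Y862.SQ.V1_nonneg y
  have hlogy : (T0 : ℝ) * C / K < Real.log y := by
    refine h2.trans_le (Real.log_le_log (by linarith) (by linarith))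
  have hlogpos : 0 < Real.log y := by
    apply Real.log_pos
    exact_mod_cast (by omega : 1 < y)
  have hT0 : T0 ≤ T := by
    rw [div_lt_iff₀ hK] at hlogy
    have h4 : K ≤ T * (C / Real.log y) :=
      hKT.trans (mul_le_mul_of_nonneg_left hVb.2 (Nat.cast_nonneg T))
    have h5 : K * Real.log y ≤ T * C := by
      have h6 := mul_le_mul_of_nonneg_right h4 hlogpos.le
      have h7 : (T : ℝ) * (C / Real.log y) * Real.log y = T * C := by
        field_simp
      linarith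
    have h6 : (T0 : ℝ) * C < T * C := by linarith
    have h7 : (T0 : ℝ) < T := lt_of_mul_lt_mul_right h6 hC.le
    exact (Nat.cast_lt.1 h7).le
  have hyK : y ^ K0 ≤ Y := by
    have h4 : ((y ^ K0 : ℕ) : ℝ) ≤ Y := by
      push_cast
      calc (y : ℝ) ^ K0 ≤ ((X : ℝ) ^ (1 / (r : ℝ))) ^ K0 :=
            pow_le_pow_left₀ (Nat.cast_nonneg _) hyz K0
        _ = (X : ℝ) ^ (1 / (r : ℝ) * K0) := by
            rw [← Real.rpow_natCast, ← Real.rpow_mul (by linarith)]
        _ ≤ (X : ℝ) ^ θ := by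
            apply Real.rpow_le_rpow_of_exponent_le hX1
            rw [one_div, inv_mul_le_iff₀ hrpos]
            linarith
        _ ≤ Y := hXY
    exact_mod_cast h4
  have hT5Y : T ^ 5 ≤ Y := by
    have h4 : ((T ^ 5 : ℕ) : ℝ) ≤ Y := by
      push_cast
      exact hT5.trans hXY
    exact_mod_cast h4
  have hmain := hl Z Y y T (by omega) hyK hT0 hT5Y hKT
  have hTY : T ≤ 2 * X := by
    have h4 : T ≤ T ^ 5 := Nat.le_self_pow (by norm_num) T
    omega
  have hsub : (Ioc Z (Z + Y)).filter (fun n => Bad r X T ε n) ⊆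
      (Ioc Z (Z + Y)).filter (fun n => Pool.Agent.Y862.SQ.Bad ε' y T n) := by
    intro n hn
    rw [mem_filter] at hn ⊢
    refine ⟨hn.1, ?_⟩
    obtain ⟨t, ht1, ht2, ht3⟩ := hn.2
    have hnX : n ≤ 2 * X := by
      have := (mem_Ioc.1 hn.1).2
      omega
    have hnt : n ^ 2 + t ≤ 5 * X ^ 2 := by
      have h4 : n ^ 2 ≤ (2 * X) ^ 2 := Nat.pow_le_pow_left hnX 2
      have h5 : t ≤ 4 * X := by omega
      nlinarith
    rw [N_eq r X n t hr1 (by omega) (by linarith) hnt, ← hy, hVeq] at ht3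
    refine ⟨t, mem_Icc.2 ⟨ht1, ht2⟩, ?_⟩
    refine lt_of_le_of_lt ?_ ht3
    exact mul_le_mul_of_nonneg_right hε'ε (by positivity)
  calc (((Ioc Z (Z + Y)).filter (fun n => Bad r X T ε n)).card : ℝ)
      ≤ (((Ioc Z (Z + Y)).filter (fun n => Pool.Agent.Y862.SQ.Bad ε' y T n)).card : ℝ) := by
        exact_mod_cast card_le_card hsub
    _ ≤ ε' * Y := hmain
    _ ≤ ε * Y := mul_le_mul_of_nonneg_right hε'ε (Nat.cast_nonneg _)

end Pool.Agent.Results.MP_73869e_nt.LawOfLargeNumbers
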