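import Pool.Agent.Y816.PD.UniB

set_option autoImplicit false

/-!
# Simultaneous almost primes `m ^ 2 + j` just above several squares, with restricted digits of `j`

For every large `n` and every set `M ⊆ [n, n ^ D]` of at most `k` integers of the same parity the numbers
`m ^ 2 + j`, `m ∈ M`, `j < b ^ K ≤ n ^ (1 / D)`, are considered, where the `i`-th digit of `j` in base `b` belongs to
an arbitrary set `A i` for all `i < K`; `K` is the integer part of `log n / (D log b)`.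
-/

namespace Pool.Agent.Results.MP_73869e_nt.RestrictedDigits

open Finset Filter
open Pool.Agent.Y816.PD (NA ND)

/-- The `j` for which, for all `m ∈ M`, all prime factors `p` of `m ^ 2 + j` satisfy `p ^ r > z`, and `m ^ 2 + j` has at
most `r` prime factors. -/
def Almost (M : Finset ℕ) (r z : ℕ) : Set ℕ := {j | ∀ m ∈ M, (∀ p : ℕ, p.Prime → p ∣ m ^ 2 + j → z < p ^ r) ∧
  (m ^ 2 + j).primeFactorsList.length ≤ r}

open Classical in
/-- The product over the primes `p ≤ z` of `1 - ω(p) / p`, with `ω(p)` the number of the `j < p` for which `p`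
divides some `m ^ 2 + j`, `m ∈ M`. -/
noncomputable def W (M : Finset ℕ) (z : ℕ) : ℝ := ∏ p ∈ (Icc 1 z).filter Nat.Prime,
  (1 - (((range p).filter (fun j : ℕ => ∃ m ∈ M, p ∣ m ^ 2 + j)).card : ℝ) / p)

lemma W_eq (M : Finset ℕ) (z : ℕ) :
    Pool.Agent.Y816.PD.WG (Pool.Agent.Y816.PD.GB 1 (M.image (fun m => m ^ 2))) z = W M z := by
  classical
  unfold Pool.Agent.Y816.PD.WG W
  apply prod_congr rfl
  intro p hp
  rw [mem_filter] at hp
  congr 3
  congr 1
  ext m
  rw [mem_filter, mem_filter, Pool.Agent.Y816.PD.GB_dvd 1 _ m hp.2]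
  simp only [mem_image, exists_exists_and_eq_and, one_mul]

/-- the squares do not cover all classes modulo an odd prime -/
lemma exists_free {p : ℕ} (hp : p.Prime) (hp2 : p ≠ 2) : ∃ j : ℕ, ∀ m : ℕ, ¬ p ∣ m ^ 2 + j := by
  haveI : Fact p.Prime := ⟨hp⟩
  by_contra hcon
  push Not at hcon
  have hsurj : Function.Surjective (fun x : ZMod p => x ^ 2) := by
    intro y
    obtain ⟨m, hm⟩ := hcon ((-y).val)
    refine ⟨m, ?_⟩
    have h1 := (ZMod.natCast_eq_zero_iff (m ^ 2 + (-y).val) p).2 hm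
    push_cast at h1
    rw [ZMod.natCast_zmod_val] at h1
    show (m : ZMod p) ^ 2 = y
    linear_combination h1
  have hinj := Finite.injective_iff_surjective.2 hsurj
  have h1 : (1 : ZMod p) = -1 := hinj (by simp)
  have h2 : ((2 : ℕ) : ZMod p) = 0 := by
    push_cast
    linear_combination h1
  have h3 := (ZMod.natCast_eq_zero_iff 2 p).1 h2
  exact hp2 ((Nat.prime_dvd_prime_iff_eq hp Nat.prime_two).1 h3)

/-- **Simultaneous almost primes just above several squares, with restricted digits.** -/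
theorem result (k : ℕ) (hk : 1 ≤ k) (D : ℕ) (hD : 1 ≤ D) :
    ∃ c : ℝ, 0 < c ∧ ∃ r₀ : ℕ, 2 ≤ r₀ ∧ ∀ r : ℕ, r₀ ≤ r → ∀ b : ℕ, 2 ≤ b → ∃ κ C : ℝ, 0 < κ ∧ 0 < C ∧
      ∀ᶠ n : ℕ in atTop, ∀ M : Finset ℕ, M.card ≤ k → (∀ m ∈ M, n ≤ m ∧ m ≤ n ^ D) →
        (∀ m ∈ M, ∀ m' ∈ M, m % 2 = m' % 2) → ∀ K : ℕ, K = Nat.log (b ^ D) n →
        ∀ A : ℕ → Finset ℕ, (∀ i < K, A i ⊆ range b) → (b : ℝ) ^ K ≤ Real.exp (c * K) * NA K A →
        ((∃ d ∈ A 0, ∀ m ∈ M, (m ^ 2 + d).Coprime b) →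
          κ * NA K A * W M (b ^ K) ≤ ND b K A {j | j ^ D < n ∧ j ∈ Almost M r (b ^ K)}) ∧
        (ND b K A {j | ∀ m ∈ M, (m ^ 2 + j).Prime} : ℝ) ≤ C * NA K A * W M (b ^ K) := by
  obtain ⟨c, hc, r₀, hr₀, h⟩ := Pool.Agent.Y816.PD.uni_apB k hk (4 * D * D)
  refine ⟨c, hc, r₀, hr₀, fun r hr b hb => ?_⟩
  obtain ⟨κ, C, hκ, hC, h1⟩ := h r hr b hb
  refine ⟨κ, C, hκ, hC, ?_⟩
  obtain ⟨K0, hK0⟩ := eventually_atTop.1 h1
  have hb0 : 0 < b := by omega
  have hbD : 1 < b ^ D := Nat.one_lt_pow (by omega) (by omega)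
  filter_upwards [eventually_ge_atTop ((b ^ D) ^ (K0 + 1))] with n hn M hMk hMn hpar K hK A hA hprod
  have hn1 : 1 ≤ n := le_trans (Nat.one_le_pow _ _ (by positivity)) hn
  have hKK : K0 + 1 ≤ K := by
    rw [hK]
    exact Nat.le_log_of_pow_le hbD hn
  have hb1 : (b ^ D) ^ K ≤ n := by
    rw [hK]
    exact Nat.pow_log_le_self _ (by omega)
  have hb2 : n < (b ^ D) ^ (K + 1) := by
    rw [hK]
    exact Nat.lt_pow_succ_log_self hbD _
  have e1 : n ≤ b ^ (2 * D * K) := by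
    calc n ≤ (b ^ D) ^ (K + 1) := hb2.le
      _ = b ^ (D * (K + 1)) := (pow_mul b D (K + 1)).symm
      _ ≤ b ^ (2 * D * K) := Nat.pow_le_pow_right hb0 (by nlinarith)
  have hE : ∀ m ∈ M, m ^ 2 ≤ b ^ (4 * D * D * K) := by
    intro m hm
    calc m ^ 2 ≤ (n ^ D) ^ 2 := Nat.pow_le_pow_left (hMn m hm).2 2
      _ ≤ ((b ^ (2 * D * K)) ^ D) ^ 2 := Nat.pow_le_pow_left (Nat.pow_le_pow_left e1 D) 2
      _ = b ^ (4 * D * D * K) := by rw [← pow_mul, ← pow_mul]; congr 1; ring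
  obtain ⟨h2, h3⟩ := hK0 K (by omega) 1 (M.image (fun m => m ^ 2)) le_rfl (Nat.one_le_pow _ _ hb0)
    (card_image_le.trans hMk) (by
      intro s hs
      obtain ⟨m, hm, rfl⟩ := mem_image.1 hs
      exact hE m hm) (by
      intro p hp
      by_cases hp2 : p = 2
      · subst hp2
        rcases M.eq_empty_or_nonempty with hM0 | ⟨m₀, hm₀⟩
        · exact ⟨0, fun s hs => by rw [hM0] at hs; simp at hs⟩
        · refine ⟨m₀ + 1, fun s hs hd => ?_⟩
          obtain ⟨m, hm, rfl⟩ := mem_image.1 hs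
          have h4 := hpar m hm m₀ hm₀
          rw [one_mul] at hd
          have h5 : m ^ 2 % 2 = m % 2 := by
            rcases Nat.mod_two_eq_zero_or_one m with h6 | h6 <;> simp [Nat.pow_mod, h6]
          omega
      · obtain ⟨j, hj⟩ := exists_free hp hp2
        refine ⟨j, fun s hs hd => ?_⟩
        obtain ⟨m, hm, rfl⟩ := mem_image.1 hs
        rw [one_mul] at hd
        exact hj m hd) A hA hprod
  rw [W_eq] at h2 h3
  constructor
  · rintro ⟨d, hd, hcop⟩
    refine (h2 ⟨d, hd, fun s hs => ?_⟩).trans (Nat.cast_le.2 ?_)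
    · obtain ⟨m, hm, rfl⟩ := mem_image.1 hs
      rw [one_mul]
      exact hcop m hm
    · apply Pool.Agent.Y816.PD.ND_mono'
      intro j hjK hj
      refine ⟨?_, fun m hm => ?_⟩
      · calc j ^ D < (b ^ K) ^ D := Nat.pow_lt_pow_left hjK (by omega)
          _ = (b ^ D) ^ K := by rw [← pow_mul, ← pow_mul, mul_comm]
          _ ≤ n := hb1
      · have := hj (m ^ 2) (mem_image_of_mem _ hm)
        rw [one_mul] at this
        exact this
  · refine le_trans (Nat.cast_le.2 ?_) h3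
    apply Pool.Agent.Y816.PD.ND_mono'
    intro j _ hj s hs
    obtain ⟨m, hm, rfl⟩ := mem_image.1 hs
    rw [one_mul]
    exact hj m hm

end Pool.Agent.Results.MP_73869e_nt.RestrictedDigits
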